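import Mathlib
import Pool.Agent.W187.WQ.Fx3

/-!
# The functions `y_k`
-/

open MeasureTheory Set
open Pool.Agent.W187.WP Pool.Agent.W187.WQ

namespace Pool.Agent.W333.WQ

theorem apx_iff (D ε : ℝ) (f : ℕ → ℝ) : ∀ (l : List ℤ) (k : ℕ),
    Apx D ε f k l ↔ ∀ i < l.length, |D * f (k + i) - ((l.getD i 0 : ℤ) : ℝ)| ≤ ε := by
  intro l
  induction l with
  | nil => intro k; simp [Apx]
  | cons a l ih =>
      intro k
      simp only [Apx, ih (k + 1)]
      constructor
      · rintro ⟨h1, h2⟩ i hi
        rcases i with _ | i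
        · simpa using h1
        · have := h2 i (by simpa using hi)
          simpa [show k + 1 + i = k + (i + 1) by ring] using this
      · intro h
        refine ⟨by simpa using h 0 (by simp), fun i hi => ?_⟩
        have := h (i + 1) (by simpa using hi)
        simpa [show k + 1 + i = k + (i + 1) by ring] using this

theorem ev_sum : ∀ (l : List ℚ) (L : ℕ) (x : ℝ), l.length ≤ L →
    ev l x = ∑ j ∈ Finset.range L, ((l.getD j 0 : ℚ) : ℝ) * x ^ j := by
  intro l
  induction l with
  | nil => intro L x _; simp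
  | cons a l ih =>
      intro L x hL
      obtain ⟨L, rfl⟩ : ∃ L', L = L' + 1 := ⟨L - 1, by simp at hL; omega⟩
      rw [ev_cons, ih L x (by simpa using hL), Finset.sum_range_succ']
      simp only [List.getD_cons_zero, pow_zero, mul_one, List.getD_cons_succ]
      rw [Finset.mul_sum, add_comm]
      congr 1
      refine Finset.sum_congr rfl (fun j _ => ?_)
      ring

theorem continuous_yr (m e k Lr : ℕ) (rc : ℕ → ℝ) : Continuous (yr m e k Lr rc) := by
  have := continuous_Umm m
  have := continuous_ph e k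
  unfold yr
  fun_prop

theorem par_yr (m e k Lr : ℕ) (rc : ℕ → ℝ) : Par ((-1) ^ e) (yr m e k Lr rc) := by
  intro x
  rw [yr, yr, par_ph e k x]
  have : Umm m (-x) = Umm m x := by
    unfold Umm
    refine Finset.sum_congr rfl (fun j _ => ?_)
    rw [neg_pow, pow_mul (-1 : ℝ) 2]; norm_num
  rw [this, neg_pow, neg_sq]
  ring

/-- **the functions `y_k`** -/
theorem yf_ok : S_YF := by
  intro p c B hNear hC hZ
  -- extraction of the checks
  simp only [chkC, Bool.and_eq_true, decide_eq_true_eq, List.all_eq_true, List.mem_range] at hC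
  simp only [chkZg, List.all_eq_true, List.mem_range] at hZ
  obtain ⟨⟨⟨⟨⟨⟨⟨⟨⟨⟨⟨hD, -⟩, -⟩, hnL⟩, -⟩, -⟩, -⟩, -⟩, -⟩, -⟩, -⟩, hk⟩ := hC
  have hDr : (0 : ℝ) < (c.D : ℝ) := by exact_mod_cast hD
  have hzl : ∀ k < c.n, (c.Z.getD k []).length = (zs p c.e k).length ∧
      Apx c.D 1 (zkr p c.e k) 0 (c.Z.getD k []) := by
    intro k hk'
    exact hNear c.D (zs p c.e k) (c.Z.getD k []) (hZ k hk')
  have hY : ∀ k < c.n, (c.Y.getD k []).drop c.n = (c.Z.getD k []).drop c.n ∧
      c.n ≤ (c.Y.getD k []).length ∧ (c.Y.getD k []).length ≤ c.Lr ∧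
      (c.Z.getD k []).length ≤ c.Lr := by
    intro k hk'
    have := hk k hk'
    obtain ⟨⟨⟨⟨⟨⟨⟨⟨⟨h1, h2⟩, h3⟩, h4⟩, -⟩, -⟩, -⟩, -⟩, -⟩, -⟩ := this
    exact ⟨h1, h2, h3, h4⟩
  have hz0 : ∀ k < c.n, ∀ j, (c.Z.getD k []).length ≤ j → zkr p c.e k j = 0 := by
    intro k hk' j hj
    unfold zkr
    rw [List.getD_eq_default _ _ (by rw [← (hzl k hk').1]; exact hj)]
    simp
  have hzf : ∀ k < c.n, ∀ x, zfg p c.e k x = yr p.m c.e k c.Lr (zkr p c.e k) x := by
    intro k hk' x
    unfold zfg yr zkr
    rw [ev_sum (zs p c.e k) c.Lr (x ^ 2) (by rw [← (hzl k hk').1]; exact (hY k hk').2.2.2)]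
  have hyz : ∀ k j, c.n ≤ j → ykr p c k j = zkr p c.e k j := by
    intro k j hj
    unfold ykr
    rw [if_neg (by omega)]
  refine ⟨fun k => continuous_yr _ _ _ _ _, fun k => par_yr _ _ _ _ _, ?_, hzf, ?_⟩
  · intro k hk' w hw ho
    have e1 : ∀ x, w x * yfg p c k x = w x * zfg p c.e k x +
        ∑ j ∈ Finset.range c.n, (ykr p c k j - zkr p c.e k j) * (w x * x ^ (c.e + 2 * j)) := by
      intro x
      have e2 : yfg p c k x = zfg p c.e k x +
          ∑ j ∈ Finset.range c.n, (ykr p c k j - zkr p c.e k j) * x ^ (c.e + 2 * j) := by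
        rw [hzf k hk' x]
        unfold yfg yr
        have e3 : ∑ j ∈ Finset.range c.Lr, ykr p c k j * (x ^ 2) ^ j =
            (∑ j ∈ Finset.range c.Lr, zkr p c.e k j * (x ^ 2) ^ j) +
            ∑ j ∈ Finset.range c.n, (ykr p c k j - zkr p c.e k j) * (x ^ 2) ^ j := by
          rw [Finset.sum_subset (Finset.range_subset_range.mpr hnL)
            (f := fun j => (ykr p c k j - zkr p c.e k j) * (x ^ 2) ^ j)]
          · rw [← Finset.sum_add_distrib]
            refine Finset.sum_congr rfl (fun j _ => ?_)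
            ring
          · intro j _ hj
            rw [Finset.mem_range, not_lt] at hj
            rw [hyz k j hj]; ring
        rw [e3]
        have e4 : ∑ j ∈ Finset.range c.n, (ykr p c k j - zkr p c.e k j) * x ^ (c.e + 2 * j) =
            x ^ c.e * ∑ j ∈ Finset.range c.n, (ykr p c k j - zkr p c.e k j) * (x ^ 2) ^ j := by
          rw [Finset.mul_sum]
          refine Finset.sum_congr rfl (fun j _ => ?_)
          rw [pow_add, pow_mul]; ring
        rw [e4]; ring
      rw [e2, mul_add, Finset.mul_sum]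
      congr 1
      refine Finset.sum_congr rfl (fun j _ => ?_)
      ring
    have cz := continuous_zfg p c.e k
    simp only [e1]
    rw [intervalIntegral.integral_add (Continuous.intervalIntegrable (by fun_prop) _ _)
      (Continuous.intervalIntegrable (by fun_prop) _ _), intervalIntegral.integral_finsetSum]
    · rw [Finset.sum_eq_zero, add_zero]
      intro j hj
      rw [Finset.mem_range] at hj
      rw [intervalIntegral.integral_const_mul, ho j hj, mul_zero]
    · intro j _
      exact Continuous.intervalIntegrable (by fun_prop) _ _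
  · intro k hk'
    obtain ⟨h1, h2, h3, h4⟩ := hY k hk'
    have hlen : (c.Y.getD k []).length - c.n = (c.Z.getD k []).length - c.n := by
      have := congrArg List.length h1
      simpa using this
    refine ⟨(hzl k hk').2, ?_, hz0 k hk', ?_⟩
    · rw [apx_iff]
      intro i hi
      rw [zero_add]
      by_cases hin : i < c.n
      · unfold ykr enti
        rw [if_pos hin]
        have : (c.D : ℝ) * ((((c.Y.getD k []).getD i 0 : ℤ) : ℝ) / (c.D : ℝ)) -
            (((c.Y.getD k []).getD i 0 : ℤ) : ℝ) = 0 := by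
          field_simp; ring
        rw [this]; simp
      · have hin' : c.n ≤ i := by omega
        rw [hyz k i hin']
        have h5 : (c.Y.getD k []).getD i 0 = (c.Z.getD k []).getD i 0 := by
          have ha : ∀ l : List ℤ, l.getD i 0 = (l.drop c.n).getD (i - c.n) 0 := by
            intro l
            simp only [List.getD_eq_getElem?_getD, List.getElem?_drop]
            rw [Nat.add_sub_cancel' hin']
          rw [ha, ha, h1]
        rw [h5]
        have h6 := (apx_iff _ _ _ _ _).mp (hzl k hk').2 i (by omega)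
        rwa [zero_add] at h6
    · intro j hj
      rw [hyz k j (by omega)]
      exact hz0 k hk' j (by omega)

end Pool.Agent.W333.WQ
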